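import Pool.Agent.Y892.DP.Stm3
import Pool.Agent.Y892.DP.C2
import Pool.Agent.Y532.DP.Zn

/-!
# Job DP-ZND: invariant defect zero characters of a cyclic `p'`-extension (helper26)
-/

set_option autoImplicit false

open scoped Classical BigOperators

noncomputable section

namespace Pool.Agent.Y26.DP

open Pool.Agent.Y63.KR Pool.Agent.Y63.AWC Pool.Agent.Y892.DP

variable {G : Type} [Group G]

/-- the order modulo a subgroup -/
theorem exists_order [Finite G] (N : Subgroup G) (a : G) :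
    ∃ n : ℕ, 0 < n ∧ ∀ k : ℕ, a ^ k ∈ N ↔ n ∣ k := by
  have hex : ∃ n : ℕ, 0 < n ∧ a ^ n ∈ N := ⟨orderOf a, orderOf_pos a, by
    rw [pow_orderOf_eq_one]; exact N.one_mem⟩
  obtain ⟨h1, h2⟩ := Nat.find_spec hex
  refine ⟨Nat.find hex, h1, fun k => ⟨fun hk => ?_, ?_⟩⟩
  · rw [Nat.dvd_iff_mod_eq_zero]
    by_contra hne
    have h3 : a ^ (k % Nat.find hex) ∈ N := by
      have h4 : a ^ k = (a ^ Nat.find hex) ^ (k / Nat.find hex) * a ^ (k % Nat.find hex) := by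
        rw [← pow_mul, ← pow_add, Nat.div_add_mod]
      rw [h4] at hk
      exact (N.mul_mem_cancel_left (N.pow_mem h2 _)).1 hk
    exact Nat.find_min hex (Nat.mod_lt _ h1) ⟨Nat.pos_of_ne_zero hne, h3⟩
  · rintro ⟨c, rfl⟩
    rw [pow_mul]
    exact N.pow_mem h2 _

theorem zmem {N : Subgroup G} {e : G} {m : ℕ} (hk : ∀ k : ℕ, e ^ k ∈ N ↔ m ∣ k) (k : ℤ) :
    e ^ k ∈ N ↔ (m : ℤ) ∣ k := by
  obtain ⟨n, rfl | rfl⟩ := k.eq_nat_or_neg
  · rw [zpow_natCast, hk, Int.natCast_dvd_natCast]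
  · rw [zpow_neg, inv_mem_iff, zpow_natCast, hk, dvd_neg, Int.natCast_dvd_natCast]

theorem coset_iff {N : Subgroup G} {u v : G} (h : v⁻¹ * u ∈ N) (x : G) :
    u⁻¹ * x ∈ N ↔ v⁻¹ * x ∈ N := by
  have e1 : v⁻¹ * x = (v⁻¹ * u) * (u⁻¹ * x) := by group
  rw [e1, N.mul_mem_cancel_left h]

theorem znd : S_SL → S_ZPAIR → S_DZC → S_DZE → S_ZND := by
  intro hsl hz hdzc hdze p _ G _ _ N a b m d hab hap hbp haN hbN hm hk hd
  have : Fintype G := Fintype.ofFinite G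
  have hpm : ¬ p ∣ m := fun h => hbp (h.trans ((hk _).1 (by
    rw [pow_orderOf_eq_one]; exact N.one_mem)))
  have hcomm : Commute a b := hab
  set H : Subgroup G := N ⊔ Subgroup.zpowers (b ^ d) with hH
  -- `a` normalises `H`
  have haH : conjSub a H = H := by
    rw [conjSub_eq_iff, hH, Subgroup.mem_normalizer_iff]
    have h1 : ∀ g : G, (∀ y, y ∈ N ↔ g * y * g⁻¹ ∈ N) → g * b = b * g → ∀ y,
        y ∈ N ⊔ Subgroup.zpowers (b ^ d) → g * y * g⁻¹ ∈ N ⊔ Subgroup.zpowers (b ^ d) := by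
      intro g hg hgb y hy
      have h2 : N ⊔ Subgroup.zpowers (b ^ d) ≤
          (N ⊔ Subgroup.zpowers (b ^ d)).comap (MulAut.conj g).toMonoidHom := by
        rw [sup_le_iff]
        constructor
        · intro z hz
          exact Subgroup.mem_sup_left ((hg z).1 hz)
        · rw [Subgroup.zpowers_le, Subgroup.mem_comap]
          change g * b ^ d * g⁻¹ ∈ _
          have h3 : g * b ^ d * g⁻¹ = b ^ d := by
            rw [(show Commute g b from hgb).pow_right d |>.eq, mul_inv_cancel_right]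
          rw [h3]
          exact Subgroup.mem_sup_right (Subgroup.mem_zpowers _)
      exact h2 hy
    have h2 : ∀ y, y ∈ N ↔ a * y * a⁻¹ ∈ N :=
      Subgroup.mem_normalizer_iff.1 (conjSub_eq_iff.1 haN)
    intro y
    refine ⟨h1 a h2 hab y, fun hy => ?_⟩
    have h3 := h1 a⁻¹ (fun y => by
      have := h2 (a⁻¹ * y * a⁻¹⁻¹)
      have e1 : a * (a⁻¹ * y * a⁻¹⁻¹) * a⁻¹ = y := by group
      rw [e1] at this
      exact this.symm) (hcomm.inv_left.eq) _ hy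
    have e1 : a⁻¹ * (a * y * a⁻¹) * a⁻¹⁻¹ = y := by group
    rwa [e1] at h3
  obtain ⟨e, he⟩ : ∃ e : G, e = a * b := ⟨_, rfl⟩
  have heN : conjSub e N = N := by
    rw [he, conjSub_mul, hbN, haN]
  have hepow : ∀ k : ℕ, e ^ k = a ^ k * b ^ k := fun k => by rw [he, hcomm.mul_pow]
  -- the order of `a` modulo `N`
  obtain ⟨P, hP0, hP⟩ := exists_order N a
  have hPm : Nat.Coprime P m := by
    obtain ⟨k, hk1⟩ := hap
    have h1 : P ∣ p ^ k := (hP _).1 (by rw [hk1]; exact N.one_mem)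
    exact Nat.Coprime.coprime_dvd_left h1
      (Nat.Coprime.pow_left k (((Fact.out : p.Prime).coprime_iff_not_dvd).2 hpm))
  have hke : ∀ k : ℕ, e ^ k ∈ N ↔ P * m ∣ k := by
    intro k
    constructor
    · intro h
      have h1 : m ∣ k := by
        obtain ⟨t, ht⟩ := hap
        have h2 := N.pow_mem h (p ^ t)
        rw [← pow_mul, mul_comm, hepow, pow_mul a, ht, one_pow, one_mul, hk] at h2
        have h3 : Nat.Coprime m (p ^ t) :=
          Nat.Coprime.pow_right _ (((Fact.out : p.Prime).coprime_iff_not_dvd.2 hpm).symm)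
        exact h3.dvd_of_dvd_mul_left h2
      have h4 : a ^ k ∈ N := by
        rw [hepow] at h
        exact (N.mul_mem_cancel_right ((hk k).2 h1)).1 h
      exact hPm.mul_dvd_of_dvd_of_dvd ((hP k).1 h4) h1
    · intro h
      rw [hepow]
      exact N.mul_mem ((hP k).2 ((Dvd.intro _ rfl).trans h)) ((hk k).2 ((Dvd.intro_left _ rfl).trans h))
  -- the pairs
  have h1 := hz p G H a haH
  have hdz : (fun x y : G => dz p H (x * y * x⁻¹ * y⁻¹)) =
      fun x y => dz p N (x * y * x⁻¹ * y⁻¹) := by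
    funext x y
    exact hdze p G N b m d hbN hm hk hpm hd _
  rw [hdz] at h1
  rw [h1, Pool.Agent.Y532.DP.pairSum_eq]
  have hind := Pool.Agent.Y532.DP.ind_ext N b m d hbN hm hk hd
  have h2 : ∑ q : G × G, (if (a ^ 0)⁻¹ * q.1 ∈ H then (1 : ℂ) else 0) *
      (if (a ^ 1)⁻¹ * q.2 ∈ H then (1 : ℂ) else 0) * dz p N (q.1 * q.2 * q.1⁻¹ * q.2⁻¹) =
      ∑ i ∈ Finset.range (m / d), ∑ j ∈ Finset.range (m / d), ∑ q : G × G,
      (if (b ^ (d * i))⁻¹ * q.1 ∈ N then (1 : ℂ) else 0) *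
      (if (b ^ (d * j))⁻¹ * (a⁻¹ * q.2) ∈ N then (1 : ℂ) else 0) *
        dz p N (q.1 * q.2 * q.1⁻¹ * q.2⁻¹) := by
    symm
    rw [Finset.sum_congr rfl fun i _ => Finset.sum_comm, Finset.sum_comm]
    refine Finset.sum_congr rfl fun q _ => ?_
    rw [pow_zero, inv_one, one_mul, pow_one, hH, ← hind q.1, ← hind (a⁻¹ * q.2),
      Finset.sum_mul_sum, Finset.sum_mul]
    refine Finset.sum_congr rfl fun i _ => ?_
    rw [Finset.sum_mul]
  rw [h2]
  refine Finset.sum_congr rfl fun i _ => Finset.sum_congr rfl fun j _ => ?_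
  obtain ⟨i', hi1, hi2⟩ := Nat.chineseRemainder hPm 0 (d * i)
  obtain ⟨j', hj1, hj2⟩ := Nat.chineseRemainder hPm 1 (d * j)
  have hci : ∀ x : G, (e ^ i')⁻¹ * x ∈ N ↔ (b ^ (d * i))⁻¹ * x ∈ N := by
    apply coset_iff
    have h3 : (b ^ (d * i))⁻¹ * e ^ i' = b ^ ((i' : ℤ) - ((d * i : ℕ) : ℤ)) * a ^ i' := by
      have h4 : a ^ i' * b ^ i' = b ^ i' * a ^ i' := (hcomm.pow_pow i' i').eq
      rw [hepow, h4, sub_eq_neg_add, zpow_add, zpow_neg, zpow_natCast, zpow_natCast, mul_assoc]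
    rw [h3]
    refine N.mul_mem ((zmem hk _).2 ?_) ((hP _).2 ?_)
    · exact (Nat.modEq_iff_dvd.1 hi2.symm)
    · exact (Nat.modEq_zero_iff_dvd).1 hi1
  have hcj : ∀ y : G, (e ^ j')⁻¹ * y ∈ N ↔ (b ^ (d * j))⁻¹ * (a⁻¹ * y) ∈ N := by
    intro y
    rw [← mul_assoc, ← mul_inv_rev]
    apply coset_iff
    have h3 : (a * b ^ (d * j))⁻¹ * e ^ j' =
        b ^ ((j' : ℤ) - ((d * j : ℕ) : ℤ)) * a ^ ((j' : ℤ) - 1) := by
      have h4 : a * b ^ (d * j) = b ^ (d * j) * a := (hcomm.pow_right (d * j)).eq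
      have h5 : a⁻¹ * b ^ (-(((d * j : ℕ) : ℤ))) = b ^ (-(((d * j : ℕ) : ℤ))) * a⁻¹ :=
        (hcomm.inv_left.zpow_right _).eq
      have h6 : a ^ (j' : ℤ) * b ^ (j' : ℤ) = b ^ (j' : ℤ) * a ^ (j' : ℤ) :=
        (hcomm.zpow_zpow _ _).eq
      have h7 : a⁻¹ * b ^ (j' : ℤ) = b ^ (j' : ℤ) * a⁻¹ := (hcomm.inv_left.zpow_right _).eq
      have h8 : a⁻¹ * a ^ (j' : ℤ) = a ^ ((j' : ℤ) - 1) := by
        rw [sub_eq_neg_add, zpow_add, zpow_neg, zpow_one]
      rw [hepow, mul_inv_rev, ← zpow_natCast b (d * j), ← zpow_natCast a j', ← zpow_natCast b j',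
        ← zpow_neg, ← h5, h6]
      rw [mul_assoc, ← mul_assoc (b ^ (-(((d * j : ℕ) : ℤ)))), ← zpow_add, ← mul_assoc,
        (hcomm.inv_left.zpow_right _).eq, mul_assoc, h8]
      congr 2
      ring
    rw [h3]
    refine N.mul_mem ((zmem hk _).2 ?_) ((zmem hP _).2 ?_)
    · exact (Nat.modEq_iff_dvd.1 hj2.symm)
    · have := Nat.modEq_iff_dvd.1 hj1.symm
      exact_mod_cast this
  have h3 := hsl G N ⊤ e (P * m) (fun x y => dz p N (x * y * x⁻¹ * y⁻¹)) heN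
    (Nat.mul_pos hP0 hm) hke (by
      intro x y hx _
      have : x * (x * y) * x⁻¹ * (x * y)⁻¹ = x * (x * y * x⁻¹ * y⁻¹) * x⁻¹ := by group
      rw [this]
      exact hdzc p G N x _ (conj_sup heN hx)) (by
      intro x y hx _
      have h1 : y * x⁻¹ * y⁻¹ * x⁻¹⁻¹ = x⁻¹ * (x * y * x⁻¹ * y⁻¹) * x⁻¹⁻¹ := by group
      rw [h1]
      exact hdzc p G N x⁻¹ _ (conj_sup heN (Subgroup.inv_mem _ hx))) i' j'
  have hgcd : Nat.gcd (Nat.gcd i' j') (P * m) = Nat.gcd (Nat.gcd (d * i) (d * j)) m := by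
    have h4 : Nat.Coprime (Nat.gcd i' j') P := by
      have h5 : Nat.gcd j' P = Nat.gcd 1 P := Nat.ModEq.gcd_eq hj1
      rw [Nat.gcd_one_left] at h5
      exact Nat.Coprime.coprime_dvd_left (Nat.gcd_dvd_right _ _) h5
    rw [Nat.Coprime.gcd_mul_left_cancel_right m h4.symm]
    apply Nat.dvd_antisymm
    · refine Nat.dvd_gcd (Nat.dvd_gcd ?_ ?_) (Nat.gcd_dvd_right _ _)
      · exact (hi2.dvd_iff (Nat.gcd_dvd_right _ _)).1
          ((Nat.gcd_dvd_left _ _).trans (Nat.gcd_dvd_left _ _))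
      · exact (hj2.dvd_iff (Nat.gcd_dvd_right _ _)).1
          ((Nat.gcd_dvd_left _ _).trans (Nat.gcd_dvd_right _ _))
    · refine Nat.dvd_gcd (Nat.dvd_gcd ?_ ?_) (Nat.gcd_dvd_right _ _)
      · exact (hi2.dvd_iff (Nat.gcd_dvd_right _ _)).2
          ((Nat.gcd_dvd_left _ _).trans (Nat.gcd_dvd_left _ _))
      · exact (hj2.dvd_iff (Nat.gcd_dvd_right _ _)).2
          ((Nat.gcd_dvd_left _ _).trans (Nat.gcd_dvd_right _ _))
  rw [hgcd, ← zero_pairs hz p N e heN, Pool.Agent.Y532.DP.pairSum_eq] at h3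
  rw [← he, ← h3]
  refine Finset.sum_congr rfl fun q _ => ?_
  rw [if_congr (hci q.1) rfl rfl, if_congr (hcj q.2) rfl rfl]

end Pool.Agent.Y26.DP
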